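import Pool.Agent.helper52.HY.SpecU

set_option autoImplicit false

open Complex Metric Set Filter Topology MeasureTheory
open Pool.Agent.helper98.ILF Pool.Agent.helper16.Multibrot

noncomputable section

namespace HY

theorem MCL_cont (n k : ℕ) : Continuous fun c : ℂ => (fz n c)^[k] 0 := by
  induction k with
  | zero =>
    simp only [Function.iterate_zero, id_eq]
    exact continuous_const
  | succ k ih =>
    simp only [Function.iterate_succ_apply']
    exact (ih.pow n).add continuous_id

theorem MCL (h : VKB_stmt) : MCL_stmt := by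
  intro n hn
  refine ⟨?_, fun r => ⟨?_, ?_, ?_⟩⟩
  · have e : multibrot n = closedBall 0 2 ∩ ⋂ k : ℕ, {c : ℂ | ‖(fz n c)^[k] 0‖ ≤ 4} := by
      ext c
      simp only [mem_inter_iff, mem_closedBall, dist_zero_right, mem_iInter, mem_ofPred_eq]
      constructor
      · intro hc
        have hv := h n c hn hc
        refine ⟨?_, ?_⟩
        · exact hv.1
        · intro k
          have h0 : (0 : ℂ) ∈ filled n c := hv.2.1
          have h1 : ‖(fz n c)^[k] 0‖ ≤ 2 + ‖c‖ := h0 k
          have h2 : ‖c‖ ≤ 2 := hv.1
          linarith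
      · rintro ⟨_, hk⟩ ht
        obtain ⟨k, hk'⟩ := ((tendsto_atTop.1 ht) 5).exists
        have h1 : ‖(fz n c)^[k] 0‖ ≤ 4 := hk k
        have h2 : (5 : ℝ) ≤ ‖(fz n c)^[k] 0‖ := hk'
        linarith
    rw [e]
    refine (isCompact_closedBall (0 : ℂ) 2).inter_right (isClosed_iInter fun k => ?_)
    exact isClosed_le (MCL_cont n k).norm continuous_const
  · have e : {c : ℂ | Disjoint (ball c r) (hyperbolic n)} = (⋃ w ∈ hyperbolic n, ball w r)ᶜ := by
      ext c
      simp only [mem_ofPred_eq, mem_compl_iff, mem_iUnion, not_exists, Set.disjoint_left, mem_ball]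
      constructor
      · intro h1 w hw h2
        rw [dist_comm] at h2
        exact h1 h2 hw
      · intro h1 w h2 hw
        rw [dist_comm] at h2
        exact h1 w hw h2
    rw [e, isClosed_compl_iff]
    exact isOpen_biUnion fun w _ => isOpen_ball
  · intro c hr hd hc
    obtain ⟨w, hw, hw2⟩ := Metric.mem_closure_iff.1 hc r hr
    refine (Set.disjoint_left.1 hd) ?_ hw
    rw [mem_ball, dist_comm]
    exact hw2
  · intro c hc
    have h1 : (closure (hyperbolic n))ᶜ ∈ 𝓝 c := isClosed_closure.isOpen_compl.mem_nhds hc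
    obtain ⟨r', hr', hs⟩ := Metric.mem_nhds_iff.1 h1
    refine ⟨r', hr', Set.disjoint_left.2 fun w hw hw2 => ?_⟩
    exact hs hw (subset_closure hw2)

end HY
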